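import Pool.Agent.Q288.TV.GLn
import Pool.Agent.Q288.TV.Sch

/-!
# MP_60b77b_nt: Tate cohomology of sigma-fixed representations is admissible

`F` is a nonarchimedean local field in which the prime `p` is a unit, for instance any local function
field of characteristic `l ≠ p`; `G` is a closed subgroup of `GL_n(F)`, for instance the group of
`F`-points of a reductive group over `F`; `σ` is a continuous automorphism of `G` with `σ ^ p = 1`;
`ρ` is a smooth representation of `G` on a vector space `V` over a field `k` of characteristic `p`, and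
`A` is an endomorphism of `V` with `A ^ p = 1` and `A ρ(g) = ρ(σ g) A`, i.e. the action of `σ`.

* if `ρ` is admissible (irreducible or not), the representations `T^0 = ker (1 - A) / N V` and
  `T^1 = ker N / (1 - A) V` of `H = G^σ` are admissible;
* without this assumption, arbitrarily small `σ`-stable compact open subgroups `U` of `G` have the
  property that the natural maps from the Tate cohomology of `V^U` to `T^i(V)^(U ∩ H)` are bijective;
* if `ρ` is irreducible and admissible, `k` is algebraically closed and `ρ` is isomorphic to `ρ ∘ σ`,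
  there is exactly one `A`.
-/

open Topology

namespace Pool.Agent.Results.MP_60b77b_nt.TateAdmissible

open Pool.Agent.Q288.TV

theorem result (p : ℕ) [Fact p.Prime]
    (F : Type*) [NontriviallyNormedField F] [IsUltrametricDist F] [ProperSpace F]
    (hF : (∃ l : ℕ, l.Prime ∧ l ≠ p ∧ CharP F l) ∨ ‖(p : F)‖ = 1)
    (n : ℕ) (G : Subgroup (Matrix.GeneralLinearGroup (Fin n) F))
    (hG : IsClosed (G : Set (Matrix.GeneralLinearGroup (Fin n) F)))
    (σ : G ≃* G) (hσc : Continuous σ) (hσ : ∀ g, σ^[p] g = g)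
    (k V : Type*) [Field k] [CharP k p] [AddCommGroup V] [Module k V]
    (ρ : Representation k G V) :
    (∀ (A : V →ₗ[k] V) (_ : A ^ p = 1) (hA : ∀ g v, A (ρ g v) = ρ (σ g) (A v)),
      (IsAdmissible ρ → IsAdmissible (T0 p ρ σ A hA) ∧ IsAdmissible (T1 p ρ σ A hA)) ∧
      (IsSmooth ρ → ∀ O ∈ 𝓝 (1 : G), ∃ U : Subgroup G,
        IsOpen (U : Set G) ∧ IsCompact (U : Set G) ∧ (∀ u ∈ U, σ u ∈ U) ∧ (U : Set G) ⊆ O ∧
        ComputedBy ρ σ (1 - A) (nrm p A) (one_sub_comm hA) (nrm_comm hA) U ∧
        ComputedBy ρ σ (nrm p A) (1 - A) (nrm_comm hA) (one_sub_comm hA) U)) ∧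
    (IsAlgClosed k → IsAdmissible ρ → Irred ρ →
      (∃ B : V ≃ₗ[k] V, ∀ g v, B (ρ g v) = ρ (σ g) (B v)) →
      ∃! A : V →ₗ[k] V, A ^ p = 1 ∧ ∀ g v, A (ρ g v) = ρ (σ g) (A v)) := by
  have hF' : ‖(p : F)‖ = 1 := by
    rcases hF with ⟨l, hl, hlp, hchar⟩ | h
    · have : Fact l.Prime := ⟨hl⟩
      exact norm_p_eq_one hlp
    · exact h
  have hnice := nice_of_closed hF' G hG σ hσc hσ
  refine ⟨fun A hAp hA => ⟨fun hρ => tate_adm hσc hσ hnice hρ hAp hA, fun hρ O hO => ?_⟩,
    fun hk hρ hi hB => ?_⟩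
  · obtain ⟨U, hU, hUO⟩ := hnice O hO
    have h1 := computedBy hσc hσ hρ hAp hA hU
    exact ⟨U, hU.opn, hU.cpt, hU.stab, hUO, h1.1, h1.2⟩
  · obtain ⟨B, hB⟩ := hB
    exact extends_unique hσ hnice hρ hi B hB

end Pool.Agent.Results.MP_60b77b_nt.TateAdmissible
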